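import Pool.Agent.helper72.FPC.Stmts

set_option autoImplicit false

namespace Pool.Agent.FPC

open Finset Real Pool.Agent.AT Pool.Agent.OM Pool.Agent.helper85.FC Pool.Agent.FR

/-- the reduced pair of two multiples of coprime numbers -/
theorem POW_rp (x y g : ℕ) (hg : 0 < g) (h : Nat.Coprime x y) : rp (x * g) (y * g) = (x, y) := by
  have h1 : Nat.gcd (x * g) (y * g) = g := by rw [Nat.gcd_mul_right, h.gcd_eq_one, one_mul]
  unfold rp
  rw [h1, Nat.mul_div_cancel x hg, Nat.mul_div_cancel y hg]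

theorem POW_rp1 (a b K j e : ℕ) (ha : 1 ≤ a) (hb : 1 ≤ b) (h : Nat.Coprime a b) (hK : j + e ≤ K) :
    rp (a ^ (j + e) * b ^ (K - (j + e))) (a ^ j * b ^ (K - j)) = (a ^ e, b ^ e) ∧
    rp (a ^ j * b ^ (K - j)) (a ^ (j + e) * b ^ (K - (j + e))) = (b ^ e, a ^ e) := by
  have hg : 0 < a ^ j * b ^ (K - (j + e)) := by positivity
  have h1 : a ^ (j + e) * b ^ (K - (j + e)) = a ^ e * (a ^ j * b ^ (K - (j + e))) := by
    rw [pow_add]; ring
  have h2 : a ^ j * b ^ (K - j) = b ^ e * (a ^ j * b ^ (K - (j + e))) := by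
    have : K - j = e + (K - (j + e)) := by omega
    rw [this, pow_add]; ring
  have hc : Nat.Coprime (a ^ e) (b ^ e) := Nat.Coprime.pow e e h
  rw [h1, h2]
  exact ⟨POW_rp _ _ _ hg hc, POW_rp _ _ _ hg hc.symm⟩

theorem POW_inj (a b : ℕ) (ha : 1 ≤ a) (hb : 1 ≤ b) (h1 : ¬ (a = 1 ∧ b = 1)) (d d' : ℕ)
    (hA : a ^ d = a ^ d') (hB : b ^ d = b ^ d') : d = d' := by
  rcases Nat.lt_or_ge 1 a with h | h
  · exact Nat.pow_right_injective h hA
  · rcases Nat.lt_or_ge 1 b with h' | h'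
    · exact Nat.pow_right_injective h' hB
    · exact absurd ⟨le_antisymm h ha, le_antisymm h' hb⟩ h1

theorem POW_ne (a b e : ℕ) (h : Nat.Coprime a b) (h1 : ¬ (a = 1 ∧ b = 1))
    (he : 1 ≤ e) : a ^ e ≠ b ^ e := by
  intro hEq
  have hc : Nat.Coprime (a ^ e) (b ^ e) := Nat.Coprime.pow e e h
  rw [← hEq, Nat.coprime_self] at hc
  have h2 : b ^ e = 1 := by rw [← hEq]; exact hc
  have he0 : e ≠ 0 := by omega
  exact h1 ⟨(Nat.pow_eq_one.mp hc).resolve_right he0, (Nat.pow_eq_one.mp h2).resolve_right he0⟩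

/-- the number of exponents `d` with `(a^(kd), b^(kd))` in a finite set -/
theorem POW_cnt (a b k L : ℕ) (ha : 1 ≤ a) (hb : 1 ≤ b) (h1 : ¬ (a = 1 ∧ b = 1)) (hk : 1 ≤ k)
    (E : Finset (ℕ × ℕ)) : #{d ∈ Icc 1 L | (a ^ (k * d), b ^ (k * d)) ∈ E} ≤ #E := by
  refine Finset.card_le_card_of_injOn (fun d => (a ^ (k * d), b ^ (k * d))) ?_ ?_
  · intro d hd
    have hd' := Finset.mem_filter.mp (Finset.mem_coe.mp hd)
    exact Finset.mem_coe.mpr hd'.2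
  · intro d _ d' _ hE
    have hE' := Prod.mk.inj hE
    have := POW_inj a b ha hb h1 _ _ hE'.1 hE'.2
    exact Nat.eq_of_mul_eq_mul_left (by omega) this

theorem POWQ (hGSY : GSM_stmt) (ε : ℝ) (C : ℕ) (hC : ∀ F : Finset ℕ, (∀ s ∈ F, 0 < s) → ∃ E : Finset (ℕ × ℕ), #E ≤ C ∧
    FourM ε E (F : Set ℕ)) (a b : ℕ) (ha : 1 ≤ a) (hb : 1 ≤ b) (hab : Nat.Coprime a b) (hne : ¬ (a = 1 ∧ b = 1)) :
    ∃ m : ℕ, 1 ≤ m ∧ m ≤ 3 * (6 * C + 1) ∧ GoodM ε (a ^ m) (b ^ m) := by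
  have hne' : ¬ (b = 1 ∧ a = 1) := fun h => hne ⟨h.2, h.1⟩
  obtain ⟨L, hL⟩ : ∃ L : ℕ, L = 6 * C + 1 := ⟨_, rfl⟩
  obtain ⟨K, hK⟩ : ∃ K : ℕ, K = 3 * L := ⟨_, rfl⟩
  have hf : ∃ f : ℕ → ℕ, ∀ i, f i = a ^ i * b ^ (K - i) := ⟨_, fun _ => rfl⟩
  obtain ⟨f, hf⟩ := hf
  have hfpos : ∀ i, 0 < f i := fun i => by rw [hf]; positivity
  obtain ⟨E, hE, hFour⟩ := hC ((range (K + 1)).image f) (by
    intro s hs
    obtain ⟨i, _, rfl⟩ := Finset.mem_image.mp hs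
    exact hfpos i)
  have hrp : ∀ j e : ℕ, j + e ≤ K → rp (f (j + e)) (f j) = (a ^ e, b ^ e) ∧
      rp (f j) (f (j + e)) = (b ^ e, a ^ e) := by
    intro j e he
    rw [hf, hf]
    exact POW_rp1 a b K j e ha hb hab he
  -- the excluded exponents
  have hex : ∃ d ∈ Icc 1 L, ∀ k ∈ Icc 1 3, (a ^ (k * d), b ^ (k * d)) ∉ E ∧ (b ^ (k * d), a ^ (k * d)) ∉ E := by
    by_contra hcon
    push Not at hcon
    have hsub : Icc 1 L ⊆ (Icc 1 3).biUnion (fun k => {d ∈ Icc 1 L | (a ^ (k * d), b ^ (k * d)) ∈ E} ∪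
        {d ∈ Icc 1 L | (b ^ (k * d), a ^ (k * d)) ∈ E}) := by
      intro d hd
      obtain ⟨k, hk, hk2⟩ := hcon d hd
      rw [Finset.mem_biUnion]
      refine ⟨k, hk, ?_⟩
      rw [Finset.mem_union, Finset.mem_filter, Finset.mem_filter]
      by_cases h1 : (a ^ (k * d), b ^ (k * d)) ∈ E
      · exact Or.inl ⟨hd, h1⟩
      · exact Or.inr ⟨hd, hk2 h1⟩
    have h1 := Finset.card_le_card hsub
    have h2 := h1.trans Finset.card_biUnion_le
    have h3 : ∀ k ∈ Icc 1 3, #({d ∈ Icc 1 L | (a ^ (k * d), b ^ (k * d)) ∈ E} ∪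
        {d ∈ Icc 1 L | (b ^ (k * d), a ^ (k * d)) ∈ E}) ≤ 2 * C := by
      intro k hk
      have hk1 := (Finset.mem_Icc.mp hk).1
      have h4 := POW_cnt a b k L ha hb hne hk1 E
      have h5 := POW_cnt b a k L hb ha hne' hk1 E
      have h6 := Finset.card_union_le {d ∈ Icc 1 L | (a ^ (k * d), b ^ (k * d)) ∈ E}
        {d ∈ Icc 1 L | (b ^ (k * d), a ^ (k * d)) ∈ E}
      omega
    have h4 := Finset.sum_le_sum h3
    rw [Nat.card_Icc] at h2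
    rw [Finset.sum_const, Nat.card_Icc, smul_eq_mul] at h4
    omega
  obtain ⟨d, hd, hdE⟩ := hex
  have hd1 := (Finset.mem_Icc.mp hd).1
  have hd2 := (Finset.mem_Icc.mp hd).2
  -- the comparison of two of the four numbers
  have hkey : ∀ i k : ℕ, 1 ≤ k → i + k ≤ 3 → rp (f ((i + k) * d)) (f (i * d)) = (a ^ (k * d), b ^ (k * d)) ∧
      rp (f (i * d)) (f ((i + k) * d)) = (b ^ (k * d), a ^ (k * d)) := by
    intro i k hk hik
    have h1 : (i + k) * d = i * d + k * d := by ring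
    have h2 : (i + k) * d ≤ 3 * L := Nat.mul_le_mul hik hd2
    rw [h1] at h2 ⊢
    exact hrp _ _ (by omega)
  have hnek : ∀ i k : ℕ, 1 ≤ k → i + k ≤ 3 → f ((i + k) * d) ≠ f (i * d) := by
    intro i k hk hik hEq
    have h1 := (hkey i k hk hik).1
    rw [hEq] at h1
    have h2 := (hkey i k hk hik).2
    rw [hEq] at h2
    have h3 : (a ^ (k * d), b ^ (k * d)) = (b ^ (k * d), a ^ (k * d)) := h1.symm.trans h2
    have h4 := (Prod.mk.inj h3).1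
    have hkd : 1 ≤ k * d := Nat.mul_pos hk hd1
    exact POW_ne a b (k * d) hab hne hkd h4
  have hcase : ∀ i j : Fin 4, i ≠ j → (∃ k : ℕ, 1 ≤ k ∧ (i : ℕ) + k ≤ 3 ∧ (j : ℕ) = (i : ℕ) + k) ∨
      (∃ k : ℕ, 1 ≤ k ∧ (j : ℕ) + k ≤ 3 ∧ (i : ℕ) = (j : ℕ) + k) := by
    intro i j hij
    have hi := i.isLt
    have hj := j.isLt
    have hv : (i : ℕ) ≠ (j : ℕ) := fun h => hij (Fin.ext h)
    rcases Nat.lt_or_gt_of_ne hv with h | h
    · exact Or.inl ⟨(j : ℕ) - i, by omega, by omega, by omega⟩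
    · exact Or.inr ⟨(i : ℕ) - j, by omega, by omega, by omega⟩
  obtain ⟨i, j, hij, hG⟩ := hFour (fun i : Fin 4 => f ((i : ℕ) * d)) (by
      intro i
      refine ⟨hfpos _, ?_⟩
      rw [Finset.mem_coe, Finset.mem_image]
      refine ⟨(i : ℕ) * d, ?_, rfl⟩
      rw [Finset.mem_range]
      have hi := i.isLt
      have : (i : ℕ) * d ≤ 3 * L := Nat.mul_le_mul (by omega) hd2
      omega) (by
      intro i j hEq
      by_contra hij
      rcases hcase i j hij with ⟨k, hk, hk3, hkj⟩ | ⟨k, hk, hk3, hkj⟩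
      · have hEq' : f ((i : ℕ) * d) = f ((j : ℕ) * d) := hEq
        rw [hkj] at hEq'
        exact hnek _ k hk hk3 hEq'.symm
      · have hEq' : f ((i : ℕ) * d) = f ((j : ℕ) * d) := hEq
        rw [hkj] at hEq'
        exact hnek _ k hk hk3 hEq') (by
      intro i j hij
      show rp (f ((i : ℕ) * d)) (f ((j : ℕ) * d)) ∉ E
      rcases hcase i j hij with ⟨k, hk, hk3, hkj⟩ | ⟨k, hk, hk3, hkj⟩
      · rw [hkj, (hkey _ k hk hk3).2]
        exact (hdE k (Finset.mem_Icc.mpr ⟨hk, by omega⟩)).2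
      · rw [hkj, (hkey _ k hk hk3).1]
        exact (hdE k (Finset.mem_Icc.mpr ⟨hk, by omega⟩)).1)
  have hG' : GoodM ε (rp (f ((i : ℕ) * d)) (f ((j : ℕ) * d))).1 (rp (f ((i : ℕ) * d)) (f ((j : ℕ) * d))).2 := hG
  rcases hcase i j hij with ⟨k, hk, hk3, hkj⟩ | ⟨k, hk, hk3, hkj⟩
  · rw [hkj, (hkey _ k hk hk3).2] at hG'
    refine ⟨k * d, Nat.mul_pos hk hd1, ?_, hGSY ε _ _ hG'⟩
    rw [← hL]
    exact Nat.mul_le_mul (by omega) hd2
  · rw [hkj, (hkey _ k hk hk3).1] at hG'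
    refine ⟨k * d, Nat.mul_pos hk hd1, ?_, hG'⟩
    rw [← hL]
    exact Nat.mul_le_mul (by omega) hd2

end Pool.Agent.FPC
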