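import Pool.Agent.helper72.FPC.Exp

/-!
# Project FP (corollaries; port of helper19/FM/Exp2), formerly FM (MP_bf63dc_nt): exponents, continued

`Exp_dens`: a set of integers which meets the differences of every set of `t + 1` integers with large gaps has lower density at least `1/t`
in all long intervals. `Exp_common`: a positive proportion of the exponents, which depends only on `n`, is good for `n` pairs at once.
`Exp_dif`: every infinite set of integers has an infinite subset all of whose differences are good exponents for all pairs.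
-/

set_option autoImplicit false

namespace Pool.Agent.FPC

open Finset Real Pool.Agent.AT Pool.Agent.OM Pool.Agent.helper85.FC Pool.Agent.FR

/-- a set of integers which meets the differences of every set of `t + 1` integers with large gaps -/
theorem Exp_dens (t : ℕ) (ht : 1 ≤ t) (x : ℕ) (G : ℕ → Prop) [DecidablePred G]
    (hG : ∀ h : ℕ → ℕ, (∀ i j, i < j → j ≤ t → h i + x < h j) → ∃ i j, i < j ∧ j ≤ t ∧ G (h j - h i)) (δ : ℝ) (hδ : 0 < δ) :
    ∃ M₀ : ℕ, ∀ M : ℕ, M₀ ≤ M → ∀ u : ℕ, (1 / (t : ℝ) - δ) * M ≤ (#{m ∈ Ioc u (u + M) | G m} : ℝ) := by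
  by_contra hcon
  push Not at hcon
  have ht0 : (0 : ℝ) < t := by exact_mod_cast ht
  have hstep : ∀ H : Finset ℕ, #H ≤ t → ∃ h, ∀ h' ∈ H, h' + x < h ∧ ¬ G (h - h') := by
    intro H hH
    obtain ⟨B, hB⟩ : ∃ B : ℕ, ∀ h' ∈ H, h' ≤ B := ⟨H.sup id, fun h' hh' => le_sup (f := id) hh'⟩
    obtain ⟨M₁, hM₁⟩ := exists_nat_gt ((2 * B + x + 1 : ℝ) / (t * δ))
    obtain ⟨M, hM, u, hu⟩ := hcon M₁
    by_contra hno
    push Not at hno
    have hsub : Ioc u (u + M) ⊆ range (B + x + 1) ∪ Ioc u (u + B) ∪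
        H.biUnion (fun h' => ({m ∈ Ioc u (u + M) | G m} : Finset ℕ).image (fun m => m + h')) := by
      intro h hh
      rw [mem_Ioc] at hh
      rw [mem_union, mem_union, mem_range, mem_Ioc, mem_biUnion]
      obtain ⟨h', hh', h1⟩ := hno h
      have h2 := hB h' hh'
      by_cases h3 : h < B + x + 1
      · exact Or.inl (Or.inl h3)
      · by_cases h4 : h ≤ u + B
        · exact Or.inl (Or.inr ⟨hh.1, h4⟩)
        · refine Or.inr ⟨h', hh', ?_⟩
          rw [mem_image]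
          refine ⟨h - h', ?_, by omega⟩
          rw [mem_filter, mem_Ioc]
          exact ⟨⟨by omega, by omega⟩, h1 (by omega)⟩
    have h1 := card_le_card hsub
    have h2 := card_union_le (range (B + x + 1) ∪ Ioc u (u + B))
      (H.biUnion (fun h' => ({m ∈ Ioc u (u + M) | G m} : Finset ℕ).image (fun m => m + h')))
    have h3 := card_union_le (range (B + x + 1)) (Ioc u (u + B))
    have h4 : #(H.biUnion (fun h' => ({m ∈ Ioc u (u + M) | G m} : Finset ℕ).image (fun m => m + h'))) ≤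
        t * #{m ∈ Ioc u (u + M) | G m} := by
      refine (card_biUnion_le.trans (sum_le_sum fun h' _ => card_image_le)).trans ?_
      rw [sum_const, smul_eq_mul]
      exact Nat.mul_le_mul_right _ hH
    rw [Nat.card_Ioc] at h1 h3
    rw [card_range] at h3
    have h5 : M ≤ 2 * B + x + 1 + t * #{m ∈ Ioc u (u + M) | G m} := by omega
    have h6 : (M : ℝ) ≤ 2 * B + x + 1 + t * #{m ∈ Ioc u (u + M) | G m} := by exact_mod_cast h5
    have h7 : (M₁ : ℝ) ≤ M := by exact_mod_cast hM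
    rw [div_lt_iff₀ (by positivity)] at hM₁
    have h8 : (M₁ : ℝ) * (t * δ) ≤ M * (t * δ) := mul_le_mul_of_nonneg_right h7 (by positivity)
    have h9 : (t : ℝ) * ((1 / (t : ℝ) - δ) * M) = M - M * (t * δ) := by
      field_simp
    have h10 := mul_lt_mul_of_pos_left hu ht0
    rw [h9] at h10
    linarith
  have hseq : ∀ k : ℕ, k ≤ t + 1 → ∃ h : ℕ → ℕ, ∀ i j, i < j → j < k → h i + x < h j ∧ ¬ G (h j - h i) := by
    intro k
    induction k with
    | zero => exact fun _ => ⟨fun _ => 0, fun i j _ hj => absurd hj (Nat.not_lt_zero j)⟩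
    | succ k ih =>
      intro hk
      obtain ⟨h, hh⟩ := ih (by omega)
      obtain ⟨y, hy⟩ := hstep ((range k).image h) (card_image_le.trans (by rw [card_range]; omega))
      refine ⟨fun i => if i = k then y else h i, fun i j hij hj => ?_⟩
      dsimp only
      rcases Nat.lt_succ_iff_lt_or_eq.1 hj with h1 | h1
      · rw [if_neg (by omega), if_neg (by omega)]
        exact hh i j hij h1
      · rw [if_neg (by omega), if_pos h1]
        exact hy (h i) (mem_image_of_mem _ (mem_range.2 (by omega)))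
  obtain ⟨h, hh⟩ := hseq (t + 1) le_rfl
  obtain ⟨i, j, hij, hj, h1⟩ := hG h fun i j hij hj => (hh i j hij (by omega)).1
  exact (hh i j hij (by omega)).2 h1

/-- the exceptional exponents are bounded -/
theorem Exp_bdd (E : Finset (ℕ × ℕ)) (a b : ℕ) (hP : Pr a b) : ∃ x : ℕ, ∀ m, x < m → (a ^ m, b ^ m) ∉ E ∧ (b ^ m, a ^ m) ∉ E := by
  have hfin : ∀ a b : ℕ, Pr a b → {m : ℕ | (a ^ m, b ^ m) ∈ E}.Finite := by
    intro a b hP
    refine Set.Finite.preimage (f := fun m : ℕ => (a ^ m, b ^ m)) ?_ E.finite_toSet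
    intro m _ m' _ h
    exact POW_inj a b hP.1 hP.2.1 hP.2.2.2 _ _ (Prod.mk.inj h).1 (Prod.mk.inj h).2
  obtain ⟨x, hx⟩ := (hfin a b hP).bddAbove
  obtain ⟨y, hy⟩ := (hfin b a ⟨hP.2.1, hP.1, hP.2.2.1.symm, fun h => hP.2.2.2 ⟨h.2, h.1⟩⟩).bddAbove
  refine ⟨max x y, fun m hm => ⟨fun h => ?_, fun h => ?_⟩⟩
  · have h1 := hx h
    omega
  · have h1 := hy h
    omega

open Classical in
/-- a positive proportion of the exponents, which depends only on `n`, is good for `n` pairs at once -/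
theorem Exp_common (n : ℕ) : ∃ c : ℝ, 0 < c ∧ (n = 1 → c = 1 / 3) ∧ ∀ (ε : ℝ) (E : Finset (ℕ × ℕ)), FourM ε E Set.univ →
    ∀ δ : ℝ, 0 < δ → ∀ a b : Fin n → ℕ, (∀ i, Pr (a i) (b i)) → ∃ M₀ : ℕ, ∀ M : ℕ, M₀ ≤ M → ∀ u : ℕ,
      (c - δ) * M ≤ (#{m ∈ Ioc u (u + M) | ∀ i, GoodM ε (a i ^ m) (b i ^ m)} : ℝ) := by
  classical
  rcases Nat.lt_or_ge n 2 with hn | hn
  · obtain rfl | rfl : n = 0 ∨ n = 1 := by omega
    · refine ⟨1, one_pos, fun h => absurd h (by norm_num), fun ε E _ δ hδ a b _ => ⟨0, fun M _ u => ?_⟩⟩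
      have h1 : ({m ∈ Ioc u (u + M) | ∀ i : Fin 0, GoodM ε (a i ^ m) (b i ^ m)} : Finset ℕ) = Ioc u (u + M) :=
        filter_true_of_mem fun m _ i => i.elim0
      rw [h1, Nat.card_Ioc, show u + M - u = M by omega]
      have : (0 : ℝ) ≤ δ * M := by positivity
      linarith
    · refine ⟨1 / 3, by norm_num, fun _ => rfl, fun ε E hE δ hδ a b hP => ?_⟩
      obtain ⟨M₀, h⟩ := Exp_third ε E hE δ hδ (a 0) (b 0) (hP 0)
      refine ⟨M₀, fun M hM u => (h M hM u).trans (Nat.cast_le.2 (card_le_card fun m hm => ?_))⟩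
      rw [mem_filter] at hm ⊢
      refine ⟨hm.1, fun i => ?_⟩
      rw [Subsingleton.elim i 0]
      exact hm.2
  · obtain ⟨R, hR⟩ := Exp_ramsey (Fin n)
    have hR4 : 4 ≤ R := by
      obtain ⟨t, ht, htR, -⟩ := hR fun _ _ => ⟨0, by omega⟩
      have h0 := ht (show (0 : Fin 4) < 1 by decide)
      have h1 := ht (show (1 : Fin 4) < 2 by decide)
      have h2 := ht (show (2 : Fin 4) < 3 by decide)
      have h3 := htR 3
      omega
    have hR1 : (0 : ℝ) < ((R - 1 : ℕ) : ℝ) := by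
      have : 0 < R - 1 := by omega
      exact_mod_cast this
    refine ⟨1 / ((R - 1 : ℕ) : ℝ), by positivity, fun h => absurd h (by omega), fun ε E hE δ hδ a b hP => ?_⟩
    have hx : ∀ i, ∃ x : ℕ, ∀ m, x < m → (a i ^ m, b i ^ m) ∉ E ∧ (b i ^ m, a i ^ m) ∉ E := fun i => Exp_bdd E _ _ (hP i)
    choose x hx using hx
    refine Exp_dens (R - 1) (by omega) (∑ i, x i) (fun m => ∀ i, GoodM ε (a i ^ m) (b i ^ m)) (fun h hh => ?_) δ hδ
    by_contra hcon
    push Not at hcon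
    have hcol : ∀ y z : ℕ, ∃ i : Fin n, y < z → z < R → ¬ GoodM ε (a i ^ (h z - h y)) (b i ^ (h z - h y)) := by
      intro y z
      by_cases hyz : y < z ∧ z < R
      · obtain ⟨i, hi⟩ := hcon y z hyz.1 (by omega)
        exact ⟨i, fun _ _ => hi⟩
      · exact ⟨⟨0, by omega⟩, fun h1 h2 => absurd ⟨h1, h2⟩ hyz⟩
    choose χ hχ using hcol
    obtain ⟨t, ht, htR, c, hc⟩ := hR χ
    have hlt : ∀ i j : Fin 4, i < j → h (t i) + ∑ i, x i < h (t j) := fun i j hij =>
      hh _ _ (ht hij) (by have := htR j; omega)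
    obtain ⟨i, j, hij, hG⟩ := Exp_four GSM ε E hE (a c) (b c) (hP c).1 (hP c).2.1 (hP c).2.2.1 (hP c).2.2.2 (fun i => h (t i))
      (fun i j hij => by
        have := hlt i j hij
        show h (t i) < h (t j)
        omega) (by
        intro i j hij
        have h1 := hlt i j hij
        have h2 : x c ≤ ∑ i, x i := single_le_sum (f := x) (fun _ _ => Nat.zero_le _) (mem_univ c)
        exact hx c _ (by omega))
    have h1 := hχ (t i) (t j) (ht hij) (htR j)
    rw [hc i j hij] at h1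
    exact h1 hG

/-- the differences of the elements of a set of an ultrafilter -/
theorem Exp_U (ε : ℝ) (E : Finset (ℕ × ℕ)) (hE : FourM ε E Set.univ) (U : Ultrafilter ℕ) (hU : (U : Filter ℕ) ≤ Filter.cofinite)
    (a b : ℕ) (hP : Pr a b) : ∀ᶠ s in (U : Filter ℕ), ∀ᶠ t in (U : Filter ℕ), GoodM ε (a ^ (t - s)) (b ^ (t - s)) := by
  by_contra hcon
  rw [← Ultrafilter.eventually_not] at hcon
  obtain ⟨x, hx⟩ := Exp_bdd E a b hP
  have hbad : ∀ s : ℕ, (¬ ∀ᶠ t in (U : Filter ℕ), GoodM ε (a ^ (t - s)) (b ^ (t - s))) →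
      ∀ᶠ t in (U : Filter ℕ), s + x < t ∧ ¬ GoodM ε (a ^ (t - s)) (b ^ (t - s)) := by
    intro s h
    have h1 : ∀ᶠ t in (U : Filter ℕ), s + x < t := hU (by
      rw [Nat.cofinite_eq_atTop]
      exact Filter.eventually_gt_atTop _)
    exact h1.and (Ultrafilter.eventually_not.2 h)
  obtain ⟨s0, b0⟩ := hcon.exists
  have c0 := hcon.and (hbad s0 b0)
  obtain ⟨s1, b1, g01⟩ := c0.exists
  have c1 := c0.and (hbad s1 b1)
  obtain ⟨s2, ⟨b2, g02⟩, g12⟩ := c1.exists
  have c2 := c1.and (hbad s2 b2)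
  obtain ⟨s3, ⟨⟨b3, g03⟩, g13⟩, g23⟩ := c2.exists
  have hall : ∀ i j : Fin 4, i < j → (![s0, s1, s2, s3] : Fin 4 → ℕ) i + x < (![s0, s1, s2, s3] : Fin 4 → ℕ) j ∧
      ¬ GoodM ε (a ^ ((![s0, s1, s2, s3] : Fin 4 → ℕ) j - (![s0, s1, s2, s3] : Fin 4 → ℕ) i))
        (b ^ ((![s0, s1, s2, s3] : Fin 4 → ℕ) j - (![s0, s1, s2, s3] : Fin 4 → ℕ) i)) := by
    intro i j hij
    fin_cases i <;> fin_cases j <;> first
      | exact absurd hij (by decide)
      | exact g01
      | exact g02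
      | exact g03
      | exact g12
      | exact g13
      | exact g23
  obtain ⟨i, j, hij, hG⟩ := Exp_four GSM ε E hE a b hP.1 hP.2.1 hP.2.2.1 hP.2.2.2 ![s0, s1, s2, s3] (by
      intro i j hij
      have := (hall i j hij).1
      omega) (by
      intro i j hij
      have := (hall i j hij).1
      exact hx _ (by omega))
  exact (hall i j hij).2 hG

/-- every infinite set of integers has an infinite subset all of whose differences are good exponents for all pairs -/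
theorem Exp_dif (hall : ∀ ε : ℝ, 0 < ε → ∃ E : Finset (ℕ × ℕ), FourM ε E Set.univ) (S : Set ℕ) (hS : S.Infinite) :
    ∃ T : Set ℕ, T ⊆ S ∧ T.Infinite ∧ ∀ a b : ℕ, Pr a b → ∀ ε : ℝ, 0 < ε →
      ∃ M : ℕ, ∀ s ∈ T, ∀ t ∈ T, M < s → s < t → GoodM ε (a ^ (t - s)) (b ^ (t - s)) := by
  classical
  have hne : (Filter.cofinite ⊓ Filter.principal S).NeBot := by
    rw [Filter.inf_principal_neBot_iff]
    intro V hV
    rw [Filter.mem_cofinite] at hV
    by_contra hcon
    rw [Set.not_nonempty_iff_eq_empty] at hcon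
    refine hS (hV.subset ?_)
    intro x hx hxV
    have : x ∈ V ∩ S := ⟨hxV, hx⟩
    rw [hcon] at this
    exact this
  obtain ⟨U, hU⟩ : ∃ U : Ultrafilter ℕ, (U : Filter ℕ) ≤ Filter.cofinite ⊓ Filter.principal S :=
    ⟨@Ultrafilter.of _ _ hne, @Ultrafilter.of_le _ _ hne⟩
  have hU1 : (U : Filter ℕ) ≤ Filter.cofinite := hU.trans inf_le_left
  have hUS : ∀ᶠ t in (U : Filter ℕ), t ∈ S := (hU.trans inf_le_right) (Filter.mem_principal_self S)
  obtain ⟨f, hf⟩ : ∃ f : ℕ → ℕ × ℕ, ∀ i, f i = if Pr (Nat.unpair i).1 (Nat.unpair i).2 then Nat.unpair i else (2, 1) := ⟨_, fun _ => rfl⟩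
  have hfP : ∀ i, Pr (f i).1 (f i).2 := by
    intro i
    rw [hf]
    split_ifs with h
    · exact h
    · exact ⟨by norm_num, by norm_num, by norm_num, by norm_num⟩
  obtain ⟨Q, hQ⟩ : ∃ Q : ℕ → ℕ → ℕ → Prop, ∀ n s t, Q n s t ↔
      ∀ i ∈ range (n + 1), GoodM (1 / ((n : ℝ) + 1)) ((f i).1 ^ (t - s)) ((f i).2 ^ (t - s)) := ⟨_, fun _ _ _ => Iff.rfl⟩
  have hA : ∀ n : ℕ, ∀ᶠ s in (U : Filter ℕ), ∀ᶠ t in (U : Filter ℕ), Q n s t := by
    intro n
    obtain ⟨E, hE⟩ := hall (1 / ((n : ℝ) + 1)) (by positivity)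
    simp only [hQ]
    have h1 : ∀ᶠ s in (U : Filter ℕ), ∀ i ∈ range (n + 1), ∀ᶠ t in (U : Filter ℕ),
        GoodM (1 / ((n : ℝ) + 1)) ((f i).1 ^ (t - s)) ((f i).2 ^ (t - s)) := by
      rw [Filter.eventually_all_finset]
      exact fun i _ => Exp_U _ E hE U hU1 _ _ (hfP i)
    refine h1.mono fun s hs => ?_
    rw [Filter.eventually_all_finset]
    exact hs
  obtain ⟨g, hg1, hg2⟩ := exists_seq_of_forall_finset_exists
    (fun x : ℕ × ℕ => x.2 ∈ S ∧ ∀ᶠ t in (U : Filter ℕ), Q x.1 x.2 t)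
    (fun x y : ℕ × ℕ => x.1 < y.1 ∧ x.2 < y.2 ∧ Q x.1 x.2 y.2) (by
      intro s hs
      obtain ⟨n, hn⟩ : ∃ n : ℕ, n = (∑ x ∈ s, x.1) + 1 := ⟨_, rfl⟩
      have hn' : ∀ x ∈ s, x.1 < n := by
        intro x hx
        have := Finset.single_le_sum (f := fun x : ℕ × ℕ => x.1) (fun _ _ => Nat.zero_le _) hx
        omega
      have h1 : ∀ᶠ t in (U : Filter ℕ), ∀ x ∈ s, x.2 < t := by
        rw [Filter.eventually_all_finset]
        intro x _
        refine hU1 ?_
        rw [Nat.cofinite_eq_atTop]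
        exact Filter.eventually_gt_atTop _
      have h2 : ∀ᶠ t in (U : Filter ℕ), ∀ x ∈ s, Q x.1 x.2 t := by
        rw [Filter.eventually_all_finset]
        intro x hx
        exact (hs x hx).2
      obtain ⟨t, h3, h4, h5, h6⟩ := (h1.and (h2.and (hUS.and (hA n)))).exists
      exact ⟨(n, t), ⟨h5, h6⟩, fun x hx => ⟨hn' x hx, h3 x hx, h4 x hx⟩⟩)
  have hsm1 : StrictMono fun i => (g i).1 := fun i j hij => (hg2 i j hij).1
  have hsm : StrictMono fun i => (g i).2 := fun i j hij => (hg2 i j hij).2.1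
  have hge : ∀ i, i ≤ (g i).1 := fun i => hsm1.le_apply
  refine ⟨Set.range fun i => (g i).2, ?_, Set.infinite_range_of_injective hsm.injective, ?_⟩
  · rintro _ ⟨i, rfl⟩
    exact (hg1 i).1
  · intro a b hP ε hε
    obtain ⟨M, hM⟩ := exists_nat_one_div_lt hε
    obtain ⟨k, hk⟩ : ∃ k, f k = (a, b) := by
      refine ⟨Nat.pair a b, ?_⟩
      rw [hf, Nat.unpair_pair, if_pos hP]
    refine ⟨(g (M + k)).2, ?_⟩
    rintro _ ⟨i, rfl⟩ _ ⟨j, rfl⟩ hi hij
    have hiM : M + k < i := hsm.lt_iff_lt.1 hi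
    have hij' : i < j := hsm.lt_iff_lt.1 hij
    have h1 := (hQ _ _ _).1 (hg2 i j hij').2.2 k (mem_range.2 (by have := hge i; omega))
    rw [hk] at h1
    refine GoodM_mono _ _ _ _ ?_ h1
    have h4 : 1 / (((g i).1 : ℝ) + 1) ≤ ε := by
      refine le_trans ?_ hM.le
      have h5 : (M : ℝ) ≤ (g i).1 := by
        have := hge i
        exact_mod_cast (show M ≤ (g i).1 by omega)
      exact one_div_le_one_div_of_le (by positivity) (by linarith)
    exact h4

end Pool.Agent.FPC
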