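import Pool.Agent.helper76.FP.Spec
import Pool.Agent.helper72.FPC.Exp2
import Pool.Agent.helper72.FPC.CNT
import Pool.Agent.helper72.FPC.THR
import Pool.Agent.helper72.FPC.SIX
import Pool.Agent.helper72.FPC.TRI
import Pool.Agent.helper71.EP.MXC

/-!
# Project FP (MP_bf63dc_nt): from `FIN_stmt` to the consequences
-/

set_option autoImplicit false

namespace Pool.Agent.FPC

open Finset Real Pool.Agent.AT Pool.Agent.OM Pool.Agent.helper85.FC Pool.Agent.FR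

theorem Asm_good (ε : ℝ) (a b : ℕ) : Pool.Agent.FP.GoodS ε a b ↔ GoodM ε a b := by
  unfold Pool.Agent.FP.GoodS GoodM Pool.Agent.SK.Dens Pool.Agent.HF.cz Pool.Agent.HF.TC
  exact Iff.rfl

/-- the theorem for `k` integers -/
theorem Asm_K (h : Pool.Agent.FP.FIN_stmt) (k : ℕ) (hk : 1 ≤ k) : ∃ C : ℝ, 0 < C ∧ ∀ ε : ℝ, 0 < ε → ε ≤ 1 → ∃ E : Finset (ℕ × ℕ), (#E : ℝ) ≤ C / ε ^ 4 ∧ CliK ε k E Set.univ := by
  obtain ⟨C, hC, h1⟩ := h k hk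
  refine ⟨C, hC, fun ε hε hε1 => ?_⟩
  obtain ⟨E, hE, h2⟩ := h1 ε hε hε1
  refine ⟨E, hE, fun s hs hinj hrat => ?_⟩
  obtain ⟨S, hS, h3⟩ := h2 s (fun i => (hs i).1) hinj (by
    intro i j hij
    have h4 := hrat j i hij.symm
    have h5 : Pool.Agent.FP.rd (s i) (s j) = rp (s j) (s i) := by
      unfold Pool.Agent.FP.rd rp
      rw [Nat.gcd_comm]
    rw [h5]
    exact h4)
  refine ⟨S, hS, fun i hi j hj hij => ?_⟩
  have h4 := (Asm_good _ _ _).1 (h3 j hj i hi hij.symm)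
  unfold GQM
  unfold Pool.Agent.FP.rd at h4
  rw [Nat.gcd_comm (s j) (s i)] at h4
  exact h4

theorem Asm_all (h : Pool.Agent.FP.FIN_stmt) : ∀ ε : ℝ, 0 < ε → ∃ E : Finset (ℕ × ℕ), FourM ε E Set.univ := by
  obtain ⟨C, hC, h1⟩ := Asm_K h 4 (by norm_num)
  intro ε hε
  by_cases hε1 : ε ≤ 1
  · obtain ⟨E, -, h2⟩ := h1 ε hε hε1
    exact ⟨E, CliK_four ε E _ h2⟩
  · obtain ⟨E, -, h2⟩ := h1 1 one_pos le_rfl
    refine ⟨E, fun s hs hinj hrat => ?_⟩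
    obtain ⟨i, j, hij, h3⟩ := CliK_four 1 E _ h2 s hs hinj hrat
    exact ⟨i, j, hij, GQMS.2.2 1 ε _ _ (not_le.1 hε1).le h3⟩

end Pool.Agent.FPC
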