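import Pool.Agent.helper19.FR.Spec
import Pool.Agent.helper25.OM.GSY

/-!
# Project FP (MP_bf63dc_nt): the good pairs of FR+ (every long interval) and their consequences

`GoodM ε a b`: there is `D ≥ 1` such that for every multiple `q` of `D` every long progression of step `q` in the class of `a - b` modulo `D` contains at least the proportion `1 - ε` of `c` which are true for `(a, b)`. The files of this folder are ports of `Pool/Agent/helper19/FM` (the names `GoodM`, `GQM`, ... are kept).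
-/

set_option autoImplicit false

namespace Pool.Agent.FPC

open Finset Real Pool.Agent.AT Pool.Agent.OM Pool.Agent.helper85.FC Pool.Agent.FR

open Classical in
/-- at least `(1 - ε) M` of any `M ≥ M₀` terms of every progression of a step divisible by `D` in the class of `a - b` modulo `D` are true for `(a, b)` -/
def GoodM (ε : ℝ) (a b : ℕ) : Prop := ∃ D : ℕ, 1 ≤ D ∧ ∀ q : ℕ, 1 ≤ q → D ∣ q → ∃ M₀ : ℕ, ∀ M : ℕ, M₀ ≤ M → ∀ y : ℤ, (D : ℤ) ∣ y - ((a : ℤ) - b) →
  (1 - ε) * M ≤ (#{t ∈ range M | TrueCase a b (y + q * (t : ℕ))} : ℝ)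

/-- the same for `s/t` in lowest terms -/
def GQM (ε : ℝ) (s t : ℕ) : Prop := GoodM ε (s / Nat.gcd s t) (t / Nat.gcd s t)

/-- among any four elements of `F` with all ratios outside `E` two form a good pair -/
def FourM (ε : ℝ) (E : Finset (ℕ × ℕ)) (F : Set ℕ) : Prop := ∀ s : Fin 4 → ℕ, (∀ i, 0 < s i ∧ s i ∈ F) → Function.Injective s →
  (∀ i j, i ≠ j → rp (s i) (s j) ∉ E) → ∃ i j, i ≠ j ∧ GQM ε (s i) (s j)

/-! ### symmetry, scaling, monotonicity -/

theorem GSM (ε : ℝ) (a b : ℕ) (h : GoodM ε a b) : GoodM ε b a := by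
  classical
  obtain ⟨D, hD, h⟩ := h
  refine ⟨D, hD, fun q hq hDq => ?_⟩
  obtain ⟨M₀, h⟩ := h q hq hDq
  refine ⟨M₀, fun M hM y hy => ?_⟩
  have hDq' : (D : ℤ) ∣ q := by exact_mod_cast hDq
  have h1 := h M hM (-y - q * ((M : ℤ) - 1)) (by
    have h2 : -y - q * ((M : ℤ) - 1) - ((a : ℤ) - b) = -(y - ((b : ℤ) - a)) - q * ((M : ℤ) - 1) := by ring
    rw [h2]
    exact dvd_sub (hy.neg_right) (hDq'.mul_right _))
  refine h1.trans ?_
  have h3 : #{t ∈ range M | TrueCase a b (-y - q * ((M : ℤ) - 1) + q * (t : ℕ))} ≤ #{t ∈ range M | TrueCase b a (y + q * (t : ℕ))} := by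
    refine card_le_card_of_injOn (fun t => M - 1 - t) ?_ ?_
    · intro t ht
      rw [mem_coe, mem_filter, mem_range] at ht
      rw [mem_coe, mem_filter, mem_range]
      refine ⟨by show M - 1 - t < M; omega, ?_⟩
      have h4 := PSY_symm ht.2
      have h5 : -(-y - q * ((M : ℤ) - 1) + q * (t : ℕ)) = y + q * ((M - 1 - t : ℕ) : ℤ) := by
        have h6 : ((M - 1 - t : ℕ) : ℤ) = (M : ℤ) - 1 - t := by
          have := ht.1
          omega
        rw [h6]
        ring
      rw [h5] at h4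
      exact h4
    · intro t ht t' ht' htt
      rw [mem_coe, mem_filter, mem_range] at ht ht'
      simp only at htt
      omega
  exact_mod_cast h3

theorem GoodM_mono (ε ε' : ℝ) (a b : ℕ) (hε : ε ≤ ε') (h : GoodM ε a b) : GoodM ε' a b := by
  obtain ⟨D, hD, h⟩ := h
  refine ⟨D, hD, fun q hq hDq => ?_⟩
  obtain ⟨M₀, h⟩ := h q hq hDq
  refine ⟨M₀, fun M hM y hy => le_trans ?_ (h M hM y hy)⟩
  have : (0 : ℝ) ≤ M := by positivity
  nlinarith

theorem GQMS : (∀ (ε : ℝ) (s t : ℕ), GQM ε s t → GQM ε t s) ∧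
    (∀ (ε : ℝ) (c s t : ℕ), 1 ≤ c → (GQM ε (s * c) (t * c) ↔ GQM ε s t)) ∧
    ∀ (ε ε' : ℝ) (s t : ℕ), ε ≤ ε' → GQM ε s t → GQM ε' s t := by
  refine ⟨?_, ?_, ?_⟩
  · intro ε s t h
    unfold GQM at h ⊢
    rw [Nat.gcd_comm t s]
    exact GSM ε _ _ h
  · intro ε c s t hc
    unfold GQM
    rw [Nat.gcd_mul_right, Nat.mul_div_mul_right _ _ hc, Nat.mul_div_mul_right _ _ hc]
  · intro ε ε' s t hε h
    exact GoodM_mono _ _ _ _ hε h

end Pool.Agent.FPC
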